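import Mathlib

namespace Pool.Agent.H.MP_e33ffa_co

abbrev Sq := Fin 6 → Fin 6

/-- constraints between the colour sequences of the ends of an edge present at time `j` -/
def Cp (j : Fin 6) (s t : Sq) : Prop :=
  ∀ i i' : Fin 6, i.val ≤ j.val + 1 → j.val ≤ i.val + 1 → i'.val ≤ j.val + 1 → j.val ≤ i'.val + 1 →
    i.val ≤ i'.val + 1 → i'.val ≤ i.val + 1 → s i ≠ t i'

theorem Cp.symm {j : Fin 6} {s t : Sq} (h : Cp j s t) : Cp j t s :=
  fun i i' a b c d e f => (h i' i c d a b f e).symm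

theorem hub (l m : Fin 6 → Fin 6) (E : Fin 6 → Fin 6 → Prop)
    (hl : ∀ a, l a ≠ a ∧ m a ≠ a ∧ l a ≠ m a)
    (hE : ∀ a u v, E u v → u ≠ v → (u = l a ∨ u = a ∨ u = m a) ∨ (v = l a ∨ v = a ∨ v = m a))
    (h1 : ∀ a, E (l a) a ∧ E a (m a)) :
    ∃ x y, x ≠ y ∧ ∀ u v, E u v → u ≠ v → u = x ∨ u = y ∨ v = x ∨ v = y := by
  have ex : ∀ a b : Fin 6, ∃ g1 : Fin 6, (g1 ≠ a ∧ g1 ≠ 0 ∧ g1 ≠ b) ∧ ∃ g2 : Fin 6,
      (g2 ≠ a ∧ g2 ≠ 0 ∧ g2 ≠ b ∧ g2 ≠ g1) ∧ ∃ g3 : Fin 6,
      (g3 ≠ a ∧ g3 ≠ 0 ∧ g3 ≠ b ∧ g3 ≠ g1 ∧ g3 ≠ g2) := by decide +kernel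
  obtain ⟨g1, h11, g2, h22, g3, h33⟩ := ex (l 0) (m 0)
  have key : ∀ g g' : Fin 6, g ≠ l 0 → g ≠ 0 → g ≠ m 0 → g' ≠ l 0 → g' ≠ 0 → g' ≠ m 0 → g ≠ g' →
      (l g' = l g ∨ l g' = m g) ∧ (m g' = l g ∨ m g' = m g) := by
    intro g g' a1 a2 a3 b1 b2 b3 c
    have p1 := hE 0 _ _ (h1 g).1 (hl g).1
    have p2 := hE 0 _ _ (h1 g).2 (hl g).2.1.symm
    have p3 := hE 0 _ _ (h1 g').1 (hl g').1
    have p4 := hE 0 _ _ (h1 g').2 (hl g').2.1.symm
    have p5 := hE g _ _ (h1 g').1 (hl g').1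
    have p6 := hE g _ _ (h1 g').2 (hl g').2.1.symm
    constructor
    · rcases p5 with (h | h | h) | (h | h | h) <;> grind
    · rcases p6 with (h | h | h) | (h | h | h) <;> grind
  refine ⟨l g1, m g1, (hl g1).2.2, fun u v huv hne => ?_⟩
  have k2 := key g1 g2 h11.1 h11.2.1 h11.2.2 h22.1 h22.2.1 h22.2.2.1 h22.2.2.2.symm
  have k3 := key g1 g3 h11.1 h11.2.1 h11.2.2 h33.1 h33.2.1 h33.2.2.1 h33.2.2.2.1.symm
  have q1 := hE g1 u v huv hne
  have q2 := hE g2 u v huv hne
  have q3 := hE g3 u v huv hne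
  grind

/-- a family of colour sequences closed under the gadget extension -/
def Closed (C : Set Sq) : Prop :=
  ∀ f : Fin 6 → Sq, (∀ j, f j ∈ C) → ∀ i : Fin 4, ∃ g : Fin 6 → Sq, (∀ a, g a ∈ C) ∧
    (∀ j, Cp j (g 0) (f j)) ∧
    (∀ a (j : Fin 6), (j.val < i.val ∨ i.val + 2 < j.val) → Cp j (g a) (f j)) ∧
    (∀ a b, a ≠ b → ∃ j : Fin 6, i.val ≤ j.val ∧ j.val ≤ i.val + 2 ∧ Cp j (g a) (g b))

theorem surj (g : Fin 6 → Sq) (i : Fin 4) (t : Fin 6) (ht : t.val = i.val + 1)
    (h : ∀ a b, a ≠ b → ∃ j : Fin 6, i.val ≤ j.val ∧ j.val ≤ i.val + 2 ∧ Cp j (g a) (g b)) :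
    Function.Surjective (fun a => g a t) := by
  apply Finite.surjective_of_injective
  intro a b hab
  by_contra hne
  obtain ⟨j, h1, h2, h3⟩ := h a b hne
  exact h3 t t (by omega) (by omega) (by omega) (by omega) (by omega) (by omega) hab

theorem F0 {C : Set Sq} (hC : Closed C) (hne : C.Nonempty) (t : Fin 6) (h1 : 1 ≤ t.val)
    (h2 : t.val ≤ 4) (a : Fin 6) : ∃ s ∈ C, s t = a := by
  obtain ⟨s, hs⟩ := hne
  obtain ⟨g, hg, -, -, h⟩ := hC (fun _ => s) (fun _ => hs) ⟨t.val - 1, by omega⟩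
  obtain ⟨b, hb⟩ := surj g _ t (by simp; omega) h a
  exact ⟨g b, hg b, hb⟩

theorem F1 {C : Set Sq} (hC : Closed C) (hne : C.Nonempty) (r t u : Fin 6) (h1 : 2 ≤ t.val)
    (h2 : t.val ≤ 3) (hr : r.val + 1 = t.val) (hu : u.val = t.val + 1) (a : Fin 6) :
    ∃ s ∈ C, s t = a ∧ s r ≠ a ∧ s u ≠ a ∧ s r ≠ s u := by
  obtain ⟨p, hp, hpa⟩ := F0 hC hne r (by omega) (by omega) a
  obtain ⟨q, hq, hqa⟩ := F0 hC hne u (by omega) (by omega) a
  obtain ⟨g, hg, -, h', h⟩ := hC (fun j => if j.val < t.val then p else q)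
    (fun j => by split_ifs <;> assumption) ⟨t.val - 1, by omega⟩
  have hs := surj g _ t (by simp; omega) h
  obtain ⟨b, hb⟩ := hs a
  have e1 := h' b ⟨t.val - 2, by omega⟩ (by simp; omega)
  have e2 := h' b ⟨t.val + 2, by omega⟩ (by simp; omega)
  rw [if_pos (by simp; omega)] at e1
  rw [if_neg (by simp)] at e2
  have n1 : g b r ≠ a := by
    rw [← hpa]
    exact e1 r r (by simp; omega) (by simp; omega) (by simp; omega) (by simp; omega)
      (by omega) (by omega)
  have n2 : g b u ≠ a := by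
    rw [← hqa]
    exact e2 u u (by simp; omega) (by simp; omega) (by simp; omega) (by simp; omega)
      (by omega) (by omega)
  refine ⟨g b, hg b, hb, n1, n2, fun he => ?_⟩
  obtain ⟨c, hc⟩ := hs (g b r)
  have hbc : b ≠ c := by
    rintro rfl
    exact n1 (hc.symm.trans hb)
  obtain ⟨j, j1, j2, j3⟩ := h b c hbc
  simp only at j1 j2 hc
  by_cases hj : j.val = t.val - 1
  · exact j3 r t (by omega) (by omega) (by omega) (by omega) (by omega) (by omega) hc.symm
  · exact j3 u t (by omega) (by omega) (by omega) (by omega) (by omega) (by omega)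
      (he.symm.trans hc.symm)

theorem child {C : Set Sq} (hC : Closed C) (f : Fin 6 → Sq) (hf : ∀ j, f j ∈ C) :
    ∃ u ∈ C, ∀ j, Cp j u (f j) := by
  obtain ⟨g, hg, h, -⟩ := hC f hf 0
  exact ⟨g 0, hg 0, h⟩

theorem hubs {C : Set Sq} (hC : Closed C) (hne : C.Nonempty) (r t u : Fin 6) (h1 : 2 ≤ t.val)
    (h2 : t.val ≤ 3) (hr : r.val + 1 = t.val) (hu : u.val = t.val + 1) :
    ∃ x y : Fin 6, x ≠ y ∧
      (∀ s ∈ C, s r ≠ s t → s r = x ∨ s r = y ∨ s t = x ∨ s t = y) ∧
      (∀ s ∈ C, s t ≠ s u → s t = x ∨ s t = y ∨ s u = x ∨ s u = y) := by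
  choose p hp h0 ha hb hc using F1 hC hne r t u h1 h2 hr hu
  have six : ∀ a b c d e : Fin 6, ∃ z : Fin 6, a ≠ b → a ≠ c → b ≠ c → d ≠ e →
      (d = a ∨ d = b ∨ d = c) ∨ (e = a ∨ e = b ∨ e = c) ∨
        ∀ w : Fin 6, w = a ∨ w = b ∨ w = c ∨ w = d ∨ w = e ∨ w = z := by decide +kernel
  obtain ⟨x, y, hxy, h⟩ := hub (fun a => p a r) (fun a => p a u)
    (fun v w => ∃ s ∈ C, (s r = v ∧ s t = w) ∨ (s t = v ∧ s u = w))
    (fun a => ⟨ha a, hb a, hc a⟩) (by
      rintro a v w ⟨s, hs, hvw⟩ hne'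
      obtain ⟨z, hz⟩ := six (p a r) a (p a u) v w
      rcases hz (ha a) (hc a) (hb a).symm hne' with h | h | h
      · exact Or.inl h
      · exact Or.inr h
      exfalso
      obtain ⟨q, hq, hqz⟩ := F0 hC hne t (by omega) (by omega) z
      rcases hvw with ⟨rfl, rfl⟩ | ⟨rfl, rfl⟩
      · obtain ⟨k, -, hk⟩ := child hC (fun j => if j = r then s else if j = t then p a else q)
          (fun j => by split_ifs; exacts [hs, hp a, hq])
        have k1 := hk r
        have k2 := hk t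
        have k3 := hk u
        have hrt : t ≠ r := fun e => by rw [e] at hr; omega
        have hur : u ≠ r := fun e => by rw [e] at hu; omega
        have hut : u ≠ t := fun e => by rw [e] at hu; omega
        simp only [hrt, hur, hut, if_true, if_false] at k1 k2 k3
        rcases h (k t) with e | e | e | e | e | e
        · exact k2 t r (by omega) (by omega) (by omega) (by omega) (by omega) (by omega) e
        · exact k2 t t (by omega) (by omega) (by omega) (by omega) (by omega) (by omega)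
            (e.trans (h0 a).symm)
        · exact k2 t u (by omega) (by omega) (by omega) (by omega) (by omega) (by omega) e
        · exact k1 t r (by omega) (by omega) (by omega) (by omega) (by omega) (by omega) e
        · exact k1 t t (by omega) (by omega) (by omega) (by omega) (by omega) (by omega) e
        · exact k3 t t (by omega) (by omega) (by omega) (by omega) (by omega) (by omega)
            (e.trans hqz.symm)
      · obtain ⟨k, -, hk⟩ := child hC (fun j => if j = r then q else if j = t then p a else s)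
          (fun j => by split_ifs; exacts [hq, hp a, hs])
        have k1 := hk r
        have k2 := hk t
        have k3 := hk u
        have hrt : t ≠ r := fun e => by rw [e] at hr; omega
        have hur : u ≠ r := fun e => by rw [e] at hu; omega
        have hut : u ≠ t := fun e => by rw [e] at hu; omega
        simp only [hrt, hur, hut, if_true, if_false] at k1 k2 k3
        rcases h (k t) with e | e | e | e | e | e
        · exact k2 t r (by omega) (by omega) (by omega) (by omega) (by omega) (by omega) e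
        · exact k2 t t (by omega) (by omega) (by omega) (by omega) (by omega) (by omega)
            (e.trans (h0 a).symm)
        · exact k2 t u (by omega) (by omega) (by omega) (by omega) (by omega) (by omega) e
        · exact k3 t t (by omega) (by omega) (by omega) (by omega) (by omega) (by omega) e
        · exact k3 t u (by omega) (by omega) (by omega) (by omega) (by omega) (by omega) e
        · exact k1 t t (by omega) (by omega) (by omega) (by omega) (by omega) (by omega)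
            (e.trans hqz.symm))
    (fun a => ⟨⟨p a, hp a, Or.inl ⟨rfl, h0 a⟩⟩, ⟨p a, hp a, Or.inr ⟨h0 a, rfl⟩⟩⟩)
  exact ⟨x, y, hxy, fun s hs hn => h _ _ ⟨s, hs, Or.inl ⟨rfl, rfl⟩⟩ hn,
    fun s hs hn => h _ _ ⟨s, hs, Or.inr ⟨rfl, rfl⟩⟩ hn⟩

def out2 (a x y : Fin 6) : Prop := a ≠ x ∧ a ≠ y

instance (a x y : Fin 6) : Decidable (out2 a x y) := by unfold out2; infer_instance

def cov6 (x y a b z c : Fin 6) : Prop :=
  ∀ w : Fin 6, w = x ∨ w = y ∨ w = a ∨ w = b ∨ w = z ∨ w = c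

instance (x y a b z c : Fin 6) : Decidable (cov6 x y a b z c) := by unfold cov6; infer_instance

theorem sel : ∀ x y x' y' : Fin 6, x ≠ y →
    ∃ a : Fin 6, out2 a x y ∧ ∃ b : Fin 6, out2 b x' y' ∧ ∃ c : Fin 6,
      out2 c x' y' ∧ ∃ z : Fin 6, cov6 x y a b z c := by decide +kernel

theorem not_closed {C : Set Sq} (hC : Closed C) (hne : C.Nonempty) : False := by
  obtain ⟨x, y, hxy, A1, A2⟩ := hubs hC hne 1 2 3 (by simp) (by simp) (by simp) (by simp)
  obtain ⟨x', y', hxy', B1, B2⟩ := hubs hC hne 2 3 4 (by simp) (by simp) (by simp) (by simp)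
  obtain ⟨a, ha, b, hb, c, hc, z, hz⟩ := sel x y x' y' hxy
  · unfold out2 at ha hb hc
    obtain ⟨p, hp, p1, p2, p3, p4⟩ := F1 hC hne 1 2 3 (by simp) (by simp) (by simp) (by simp) a
    obtain ⟨q, hq, q1, q2, q3, q4⟩ := F1 hC hne 2 3 4 (by simp) (by simp) (by simp) (by simp) b
    obtain ⟨r, hr, r1⟩ := F0 hC hne 2 (by simp) (by simp) z
    obtain ⟨s, hs, s1⟩ := F0 hC hne 3 (by simp) (by simp) c
    obtain ⟨k, hkC, hk⟩ := child hC ![r, r, p, q, s, s] (fun j => by
      fin_cases j <;> simpa)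
    have a1 := A1 p hp (by rw [p1]; exact p2)
    have a2 := A2 p hp (by rw [p1]; exact p3.symm)
    have b1 := B1 q hq (by rw [q1]; exact q2)
    have b2 := B2 q hq (by rw [q1]; exact q3.symm)
    have k1 : k 2 ≠ r 2 := hk 1 2 2 (by simp) (by simp) (by simp) (by simp) (by simp) (by simp)
    have k2 : k 2 ≠ p 1 := hk 2 2 1 (by simp) (by simp) (by simp) (by simp) (by simp) (by simp)
    have k3 : k 2 ≠ p 2 := hk 2 2 2 (by simp) (by simp) (by simp) (by simp) (by simp) (by simp)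
    have k4 : k 2 ≠ p 3 := hk 2 2 3 (by simp) (by simp) (by simp) (by simp) (by simp) (by simp)
    have k5 : k 2 ≠ q 3 := hk 3 2 3 (by simp) (by simp) (by simp) (by simp) (by simp) (by simp)
    have k6 : k 3 ≠ q 2 := hk 3 3 2 (by simp) (by simp) (by simp) (by simp) (by simp) (by simp)
    have k7 : k 3 ≠ q 4 := hk 3 3 4 (by simp) (by simp) (by simp) (by simp) (by simp) (by simp)
    have k8 : k 3 ≠ s 3 := hk 4 3 3 (by simp) (by simp) (by simp) (by simp) (by simp) (by simp)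
    have hx : k 2 ≠ x ∧ k 2 ≠ y := by grind
    have hk2 : k 2 = c := by
      have := hz (k 2)
      grind
    have hx' : k 3 ≠ x' ∧ k 3 ≠ y' := by grind
    have := B1 k hkC (by rw [hk2, ← s1]; exact k8.symm)
    grind

end Pool.Agent.H.MP_e33ffa_co
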