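import Mathlib
import Pool.Agent.H.MP_e33ffa_co.A

namespace Pool.Agent.H.MP_e33ffa_co

structure TS where
  V : Type
  fin : Finite V
  root : V
  par : Fin 6 → V → V
  rk : Fin 6 → V → ℕ
  h : ∀ j v, v ≠ root → rk j (par j v) < rk j v

def tpar (k : ℕ) : Fin 6 → Fin 6 :=
  if k = 0 then ![0, 0, 5, 4, 2, 1] else if k = 1 then ![0, 2, 0, 0, 5, 3] else ![0, 4, 3, 1, 0, 0]

def dep (k : ℕ) : Fin 6 → ℕ :=
  if k = 0 then ![0, 1, 3, 5, 4, 2] else if k = 1 then ![0, 2, 1, 1, 3, 2] else ![0, 2, 4, 3, 1, 1]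

theorem dep_lt (k : ℕ) (a : Fin 6) (ha : a ≠ 0) : dep k (tpar k a) < dep k a := by
  unfold dep tpar
  split_ifs <;> revert a <;> decide

theorem cover : ∀ a b : Fin 6, a ≠ b → ∃ k : Fin 3,
    (a ≠ 0 ∧ tpar k.val a = b) ∨ (b ≠ 0 ∧ tpar k.val b = a) := by decide

def TS.ext (S : TS) : TS where
  V := S.V ⊕ ((Fin 6 → S.V) × Fin 4 × Fin 6)
  fin := by have := S.fin; infer_instance
  root := Sum.inl S.root
  par j := fun v => match v with
    | Sum.inl u => Sum.inl (S.par j u)
    | Sum.inr (f, i, a) => if i.val ≤ j.val ∧ j.val ≤ i.val + 2 ∧ a ≠ 0 then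
        Sum.inr (f, i, tpar (j.val - i.val) a) else Sum.inl (f j)
  rk j := fun v => match v with
    | Sum.inl u => S.rk j u
    | Sum.inr (f, i, a) => S.rk j (f j) + 1 + dep (j.val - i.val) a
  h j v hv := by
    rcases v with u | ⟨f, i, a⟩
    · exact S.h j u (fun e => hv (by rw [e]))
    · by_cases hc : i.val ≤ j.val ∧ j.val ≤ i.val + 2 ∧ a ≠ 0
      · simp only [if_pos hc]
        have := dep_lt (j.val - i.val) a hc.2.2
        omega
      · simp only [if_neg hc]
        omega

def tower : ℕ → TS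
  | 0 => ⟨Unit, inferInstance, (), fun _ _ => (), fun _ _ => 0, fun _ _ h => absurd rfl h⟩
  | n + 1 => (tower n).ext

def Valid (S : TS) (s : S.V → Sq) : Prop := ∀ j v, v ≠ S.root → Cp j (s v) (s (S.par j v))

theorem grow (S : TS) (s : S.ext.V → Sq) (hs : Valid S.ext s) :
    Valid S (fun v => s (Sum.inl v)) ∧
      (Set.range fun v => s (Sum.inl v)).ncard < (Set.range s).ncard := by
  refine ⟨fun j v hv => hs j (Sum.inl v) (fun e => hv (Sum.inl_injective e)), ?_⟩
  apply Set.ncard_lt_ncard _ (Set.toFinite _)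
  refine ⟨by rintro _ ⟨v, rfl⟩; exact ⟨_, rfl⟩, fun hsub => ?_⟩
  refine not_closed (C := Set.range fun v => s (Sum.inl v)) ?_ ⟨_, S.root, rfl⟩
  intro f hf i
  choose f' hf' using hf
  have out : ∀ (a : Fin 6) (j : Fin 6), ¬ (i.val ≤ j.val ∧ j.val ≤ i.val + 2 ∧ a ≠ 0) →
      Cp j (s (Sum.inr (f', i, a))) (f j) := by
    intro a j hc
    have := hs j (Sum.inr (f', i, a)) (by simp [TS.ext])
    simp only [TS.ext, if_neg hc] at this
    rw [← hf' j]; exact this
  have inn : ∀ (a : Fin 6) (k : Fin 3), a ≠ 0 →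
      Cp ⟨i.val + k.val, by omega⟩ (s (Sum.inr (f', i, a))) (s (Sum.inr (f', i, tpar k.val a))) := by
    intro a k ha
    have := hs ⟨i.val + k.val, by omega⟩ (Sum.inr (f', i, a)) (by simp [TS.ext])
    have hc : i.val ≤ i.val + k.val ∧ i.val + k.val ≤ i.val + 2 ∧ a ≠ 0 := ⟨by omega, by omega, ha⟩
    simp only [TS.ext, if_pos hc, Nat.add_sub_cancel_left] at this
    exact this
  refine ⟨fun a => s (Sum.inr (f', i, a)), fun a => hsub ⟨_, rfl⟩,
    fun j => out 0 j (by simp), fun a j hj => out a j (by omega), fun a b hab => ?_⟩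
  obtain ⟨k, ⟨h1, h2⟩ | ⟨h1, h2⟩⟩ := cover a b hab
  · exact ⟨⟨i.val + k.val, by omega⟩, by simp, by simp; omega, by
      have := inn a k h1; rwa [h2] at this⟩
  · exact ⟨⟨i.val + k.val, by omega⟩, by simp, by simp; omega, by
      have := inn b k h1; rw [h2] at this; exact this.symm⟩

theorem many (n : ℕ) : ∀ s : (tower n).V → Sq, Valid (tower n) s → n ≤ (Set.range s).ncard := by
  induction n with
  | zero => intro _ _; exact Nat.zero_le _
  | succ n ih =>
    intro s hs
    obtain ⟨h1, h2⟩ := grow (tower n) s hs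
    exact Nat.succ_le_of_lt (lt_of_le_of_lt (ih _ h1) h2)

theorem no_valid : ∃ S : TS, ∀ s : S.V → Sq, ¬ Valid S s := by
  refine ⟨tower (Nat.card Sq + 1), fun s hs => ?_⟩
  have h1 := many _ s hs
  have h2 := Set.ncard_le_card (Set.range s)
  omega

def TS.G (S : TS) (j : Fin 6) : SimpleGraph S.V :=
  SimpleGraph.fromRel (fun u v => u ≠ S.root ∧ S.par j u = v)

theorem TS.adj (S : TS) (j : Fin 6) (v : S.V) (hv : v ≠ S.root) : (S.G j).Adj v (S.par j v) := by
  refine (SimpleGraph.fromRel_adj _ _ _).2 ⟨fun e => ?_, Or.inl ⟨hv, rfl⟩⟩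
  have := S.h j v hv
  rw [← e] at this
  omega

theorem TS.isTree (S : TS) (j : Fin 6) : (S.G j).IsTree := by
  have := S.fin
  rw [SimpleGraph.isTree_iff_connected_and_card]
  constructor
  · have hr : ∀ n v, S.rk j v = n → (S.G j).Reachable v S.root := by
      intro n
      induction n using Nat.strong_induction_on with
      | _ n ih =>
        intro v hv
        by_cases h : v = S.root
        · rw [h]
        · exact (S.adj j v h).reachable.trans (ih _ (by rw [← hv]; exact S.h j v h) _ rfl)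
    have : Nonempty S.V := ⟨S.root⟩
    exact ⟨fun u v => (hr _ u rfl).trans (hr _ v rfl).symm⟩
  · have e : Nat.card {v : S.V // v ≠ S.root} = Nat.card (S.G j).edgeSet := by
      refine Nat.card_eq_of_bijective (fun v => ⟨s(v.1, S.par j v.1), S.adj j v.1 v.2⟩) ⟨?_, ?_⟩
      · rintro ⟨u, hu⟩ ⟨v, hv⟩ huv
        have huv' : s(u, S.par j u) = s(v, S.par j v) := congrArg Subtype.val huv
        rcases Sym2.eq_iff.1 huv' with ⟨h, -⟩ | ⟨h1, h2⟩
        · exact Subtype.ext h
        · have a := S.h j u hu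
          have b := S.h j v hv
          rw [h2] at a
          rw [← h1] at b
          omega
      · rintro ⟨e, he⟩
        induction e using Sym2.ind with
        | _ u v =>
          obtain ⟨-, ⟨h1, h2⟩ | ⟨h1, h2⟩⟩ := (SimpleGraph.fromRel_adj
            (fun u v => u ≠ S.root ∧ S.par j u = v) u v).1 he
          · exact ⟨⟨u, h1⟩, Subtype.ext (by simp [h2])⟩
          · exact ⟨⟨v, h1⟩, Subtype.ext (by simp [h2])⟩
    rw [← e]
    classical
    have := Fintype.ofFinite S.V
    have hpos : 0 < Fintype.card S.V := Fintype.card_pos_iff.2 ⟨S.root⟩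
    simp only [Nat.card_eq_fintype_card, ne_eq, Fintype.card_subtype_compl,
      Fintype.card_unique]
    omega

end Pool.Agent.H.MP_e33ffa_co
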